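import Pool.Agent.Lib_helper88.WE.Upper

/-!
# The equilibrium measure of the generalised Julia set

The law `om` of the point `X 0` under fair coins is carried by `S.K`, has no atoms, its support is
`S.K`, and its logarithmic energy is `0`.
-/

set_option autoImplicit false

namespace Pool.Agent.Lib_helper88.WE

open MeasureTheory Finset Filter
open scoped Topology ENNReal

open Pool.Agent.Lib_helper39.Widom Pool.Agent.WidomLib

/-! ### Symmetries of fair coins -/

/-- the change of the first digit -/
def flip (e : ℕ → Bool) : ℕ → Bool := fun n => if n = 0 then !(e 0) else e n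

lemma shift_flip (e : ℕ → Bool) : shift (flip e) = shift e := by
  funext n
  simp [shift, flip]

lemma measurable_flip : Measurable flip := by
  rw [measurable_pi_iff]
  intro n
  by_cases h : n = 0
  · subst h
    have h1 : (fun e : ℕ → Bool => flip e 0) = (fun b : Bool => !b) ∘ (fun e : ℕ → Bool => e 0) := by
      funext e
      simp [flip]
    rw [h1]
    exact (measurable_of_finite _).comp (measurable_pi_apply 0)
  · have h1 : (fun e : ℕ → Bool => flip e n) = fun e : ℕ → Bool => e n := by
      funext e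
      simp [flip, h]
    rw [h1]
    exact measurable_pi_apply n

lemma measurable_shift : Measurable shift := by
  rw [measurable_pi_iff]
  intro n
  exact measurable_pi_apply (n + 1)

lemma coin_not (T : Set Bool) : coin ((fun b : Bool => !b) ⁻¹' T) = coin T := by
  have h1 : ∀ T : Set Bool, coin T = (2 : ℝ≥0∞)⁻¹ * (T.indicator 1 false + T.indicator 1 true) := by
    intro T
    simp [coin, mul_add]
  rw [h1, h1]
  congr 1
  rw [add_comm]
  congr 1

lemma map_shift : beta.map shift = beta := by
  unfold beta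
  apply Measure.eq_infinitePi
  intro s t ht
  rw [Measure.map_apply measurable_shift (MeasurableSet.pi s.countable_toSet fun i _ => ht i)]
  have h1 : shift ⁻¹' (Set.pi (s : Set ℕ) t) =
      Set.pi ((s.map ⟨Nat.succ, Nat.succ_injective⟩ : Finset ℕ) : Set ℕ) (fun n => t (n - 1)) := by
    ext e
    simp only [Set.mem_preimage, Set.mem_pi, Finset.mem_coe, Finset.mem_map,
      Function.Embedding.coeFn_mk, forall_exists_index, and_imp]
    constructor
    · rintro h n i hi rfl
      exact h i hi
    · intro h i hi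
      exact h _ i hi rfl
  rw [h1, Measure.infinitePi_pi _ fun i _ => ht _, Finset.prod_map]
  rfl

lemma map_flip : beta.map flip = beta := by
  unfold beta
  apply Measure.eq_infinitePi
  intro s t ht
  rw [Measure.map_apply measurable_flip (MeasurableSet.pi s.countable_toSet fun i _ => ht i)]
  have h1 : flip ⁻¹' (Set.pi (s : Set ℕ) t) =
      Set.pi (s : Set ℕ) (fun n => if n = 0 then (fun b : Bool => !b) ⁻¹' t 0 else t n) := by
    ext e
    simp only [Set.mem_preimage, Set.mem_pi, Finset.mem_coe]
    refine forall₂_congr fun n _ => ?_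
    by_cases h : n = 0
    · subst h
      simp [flip]
    · simp [flip, h]
  rw [h1, Measure.infinitePi_pi]
  · refine Finset.prod_congr rfl fun n _ => ?_
    by_cases h : n = 0
    · subst h
      rw [if_pos rfl, coin_not]
    · rw [if_neg h]
  · intro n _
    exact MeasurableSet.of_discrete

variable {S : Sys}

lemma X_flip (m : ℕ) (e : ℕ → Bool) : S.X m (flip e) = - S.X m e := by
  rw [Sys.X_eq, Sys.X_eq (e := e), shift_flip]
  unfold Sys.br
  have h1 : flip e 0 = !(e 0) := by simp [flip]
  rw [h1]
  cases e 0 <;> simp [sg]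

lemma one_le_abs_X (m : ℕ) (e : ℕ → Bool) : 1 ≤ |S.X m e| := by
  have h1 := Sys.sqrt_L_le_abs_X (S := S) m e
  have h2 : 1 ≤ Real.sqrt (S.L m) := by
    rw [Real.one_le_sqrt]
    linarith [S.four_le_L m]
  exact h2.trans h1

/-! ### Truncated energies -/

lemma max_le_mul {x y δ : ℝ} (h : 1 ≤ |x| + |y|) (h0 : 0 < δ) :
    max |x ^ 2 - y ^ 2| δ ≤ max |x - y| δ * max |x + y| δ := by
  apply max_le
  · have h2 : |x ^ 2 - y ^ 2| = |x - y| * |x + y| := by
      rw [← abs_mul]
      congr 1
      ring
    rw [h2]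
    exact mul_le_mul (le_max_left _ _) (le_max_left _ _) (abs_nonneg _)
      ((abs_nonneg _).trans (le_max_left _ _))
  · have h2 : 1 ≤ |x - y| ∨ 1 ≤ |x + y| := by
      rcases le_total 0 x with hx | hx <;> rcases le_total 0 y with hy | hy
      · right
        rw [abs_of_nonneg hx, abs_of_nonneg hy] at h
        exact h.trans (le_abs_self _)
      · left
        rw [abs_of_nonneg hx, abs_of_nonpos hy] at h
        exact (by linarith : 1 ≤ x - y).trans (le_abs_self _)
      · left
        rw [abs_of_nonpos hx, abs_of_nonneg hy] at h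
        exact (by linarith : 1 ≤ -(x - y)).trans (neg_le_abs _)
      · right
        rw [abs_of_nonpos hx, abs_of_nonpos hy] at h
        exact (by linarith : 1 ≤ -(x + y)).trans (neg_le_abs _)
    rcases h2 with h2 | h2
    · calc δ = 1 * δ := (one_mul δ).symm
        _ ≤ _ := mul_le_mul (h2.trans (le_max_left _ _)) (le_max_right _ _) h0.le
          (zero_le_one.trans (h2.trans (le_max_left _ _)))
    · calc δ = δ * 1 := (mul_one δ).symm
        _ ≤ _ := mul_le_mul (le_max_right _ _) (h2.trans (le_max_left _ _)) zero_le_one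
          (h0.le.trans (le_max_right _ _))

variable (S)

/-- the truncated kernel -/
noncomputable def G (δ : ℝ) (m : ℕ) (p : (ℕ → Bool) × (ℕ → Bool)) : ℝ :=
  Real.log (max |S.X m p.1 - S.X m p.2| δ)

/-- the truncated energy -/
noncomputable def En (δ : ℝ) (m : ℕ) : ℝ := ∫ p, G S δ m p ∂(beta.prod beta)

variable {S}

lemma continuous_G {δ : ℝ} (hδ : 0 < δ) (m : ℕ) : Continuous (G S δ m) := by
  unfold G
  have h1 := Sys.continuous_X (S := S) m
  apply Continuous.log
  · exact (((h1.comp continuous_fst).sub (h1.comp continuous_snd)).abs).max continuous_const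
  · intro p
    exact (hδ.trans_le (le_max_right _ _)).ne'

lemma le_G {δ : ℝ} (hδ : 0 < δ) (m : ℕ) (p : (ℕ → Bool) × (ℕ → Bool)) :
    Real.log δ ≤ G S δ m p := Real.log_le_log hδ (le_max_right _ _)

lemma G_le {δ : ℝ} (hδ : 0 < δ) (hδ1 : δ ≤ 1) (m : ℕ) (p : (ℕ → Bool) × (ℕ → Bool)) :
    G S δ m p ≤ Real.log (2 * S.b m) := by
  apply Real.log_le_log (hδ.trans_le (le_max_right _ _))
  apply max_le
  · have h1 := abs_le.mp (Sys.abs_X_le (S := S) m p.1)
    have h2 := abs_le.mp (Sys.abs_X_le (S := S) m p.2)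
    rw [abs_le]
    constructor <;> linarith
  · linarith [S.two_le_b m]

lemma integrable_G {δ : ℝ} (hδ : 0 < δ) (hδ1 : δ ≤ 1) (m : ℕ) :
    Integrable (G S δ m) (beta.prod beta) := by
  apply Integrable.of_bound (continuous_G hδ m).aestronglyMeasurable
    (max |Real.log δ| |Real.log (2 * S.b m)|)
  refine Filter.Eventually.of_forall fun p => ?_
  rw [Real.norm_eq_abs]
  exact abs_le_max_abs_abs (le_G hδ m p) (G_le hδ hδ1 m p)

lemma mp_flip : MeasurePreserving flip beta beta := ⟨measurable_flip, map_flip⟩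

lemma mp_shift : MeasurePreserving shift beta beta := ⟨measurable_shift, map_shift⟩

lemma integral_comp_mp {α : Type} [MeasurableSpace α] {μ : Measure α} {f : α → α}
    (hf : MeasurePreserving f μ μ) {g : α → ℝ} (hg : AEStronglyMeasurable g μ) :
    ∫ x, g (f x) ∂μ = ∫ x, g x ∂μ := by
  have h1 := integral_map (μ := μ) hf.measurable.aemeasurable (f := g)
    (by rw [hf.map_eq]; exact hg)
  rw [hf.map_eq] at h1
  exact h1.symm

lemma En_succ_le {δ : ℝ} (hδ : 0 < δ) (hδ1 : δ ≤ 1) (m : ℕ) : En S δ (m + 1) ≤ 2 * En S δ m := by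
  have h1 : MeasurePreserving (Prod.map id flip : (ℕ → Bool) × (ℕ → Bool) → _)
      (beta.prod beta) (beta.prod beta) := (MeasurePreserving.id beta).prod mp_flip
  have h2 : MeasurePreserving (Prod.map shift shift : (ℕ → Bool) × (ℕ → Bool) → _)
      (beta.prod beta) (beta.prod beta) := mp_shift.prod mp_shift
  have e1 : ∫ p, G S δ m (Prod.map id flip p) ∂(beta.prod beta) = En S δ m :=
    integral_comp_mp h1 (continuous_G hδ m).aestronglyMeasurable
  have e2 : ∫ p, G S δ (m + 1) (Prod.map shift shift p) ∂(beta.prod beta) = En S δ (m + 1) :=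
    integral_comp_mp h2 (continuous_G hδ (m + 1)).aestronglyMeasurable
  have i1 : Integrable (fun p => G S δ m (Prod.map id flip p)) (beta.prod beta) :=
    h1.integrable_comp_of_integrable (integrable_G hδ hδ1 m)
  have i2 : Integrable (fun p => G S δ (m + 1) (Prod.map shift shift p)) (beta.prod beta) :=
    h2.integrable_comp_of_integrable (integrable_G hδ hδ1 (m + 1))
  have i0 := integrable_G (S := S) hδ hδ1 m
  have e3 : 2 * En S δ m = ∫ p, (G S δ m p + G S δ m (Prod.map id flip p)) ∂(beta.prod beta) := by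
    rw [integral_add i0 i1, e1]
    unfold En
    ring
  rw [← e2, e3]
  apply integral_mono i2 (i0.add i1)
  rintro ⟨e, e'⟩
  change G S δ (m + 1) (shift e, shift e') ≤ G S δ m (e, e') + G S δ m (e, flip e')
  unfold G
  simp only
  rw [X_flip, sub_neg_eq_add]
  have p1 : 0 < max |S.X m e - S.X m e'| δ := hδ.trans_le (le_max_right _ _)
  have p2 : 0 < max |S.X m e + S.X m e'| δ := hδ.trans_le (le_max_right _ _)
  rw [← Real.log_mul p1.ne' p2.ne']
  apply Real.log_le_log (hδ.trans_le (le_max_right _ _))
  have h3 : S.X (m + 1) (shift e) - S.X (m + 1) (shift e') = S.X m e ^ 2 - S.X m e' ^ 2 := by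
    rw [Sys.X_sq, Sys.X_sq]
    ring
  rw [h3]
  apply max_le_mul _ hδ
  have := one_le_abs_X (S := S) m e
  have := abs_nonneg (S.X m e')
  linarith

lemma En_add_le {δ : ℝ} (hδ : 0 < δ) (hδ1 : δ ≤ 1) (j : ℕ) : ∀ m : ℕ,
    En S δ (m + j) ≤ 2 ^ j * En S δ m := by
  induction j with
  | zero => intro m; simp
  | succ j ih =>
    intro m
    have h1 := ih (m + 1)
    have h2 := En_succ_le (S := S) hδ hδ1 m
    rw [show m + (j + 1) = m + 1 + j by omega, pow_succ]
    have h3 : (0 : ℝ) < 2 ^ j := by positivity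
    have h4 := mul_le_mul_of_nonneg_left h2 h3.le
    linarith

lemma le_En {δ : ℝ} (hδ : 0 < δ) (hδ1 : δ ≤ 1) (m : ℕ) : Real.log δ ≤ En S δ m := by
  have h1 : ∫ _p : (ℕ → Bool) × (ℕ → Bool), Real.log δ ∂(beta.prod beta) = Real.log δ := by
    rw [integral_const]
    simp
  rw [← h1]
  exact integral_mono (integrable_const _) (integrable_G hδ hδ1 m) (le_G hδ m)

lemma En_nonneg {δ : ℝ} (hδ : 0 < δ) (hδ1 : δ ≤ 1) (m : ℕ) : 0 ≤ En S δ m := by
  have h1 : ∀ j : ℕ, Real.log δ * (1 / 2) ^ j ≤ En S δ m := by
    intro j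
    have h2 := (le_En (S := S) hδ hδ1 (m + j)).trans (En_add_le hδ hδ1 j m)
    have h3 : (0 : ℝ) < 2 ^ j := by positivity
    rw [one_div_pow, mul_one_div, div_le_iff₀ h3, mul_comm]
    exact h2
  have h2 : Tendsto (fun j : ℕ => Real.log δ * ((1 : ℝ) / 2) ^ j) atTop (𝓝 (Real.log δ * 0)) :=
    (tendsto_pow_atTop_nhds_zero_of_lt_one (by norm_num) (by norm_num)).const_mul _
  rw [mul_zero] at h2
  exact le_of_tendsto' h2 h1

/-! ### The energy of the law of `X m` -/

lemma diag_null : (beta.prod beta) {p : (ℕ → Bool) × (ℕ → Bool) | p.1 = p.2} = 0 := by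
  have hm : MeasurableSet {p : (ℕ → Bool) × (ℕ → Bool) | p.1 = p.2} :=
    (isClosed_eq continuous_fst continuous_snd).measurableSet
  rw [Measure.measure_prod_null hm]
  refine Filter.Eventually.of_forall fun x => ?_
  have : (Prod.mk x ⁻¹' {p : (ℕ → Bool) × (ℕ → Bool) | p.1 = p.2}) = {x} := by
    ext y; simp [eq_comm]
  change beta (Prod.mk x ⁻¹' {p : (ℕ → Bool) × (ℕ → Bool) | p.1 = p.2}) = 0
  rw [this]
  exact beta_singleton x

lemma measurable_logX (m : ℕ) : Measurable fun p : (ℕ → Bool) × (ℕ → Bool) =>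
    Real.log |S.X m p.1 - S.X m p.2| := by
  have h1 := (Sys.continuous_X (S := S) m).measurable
  have h2 : Measurable fun p : (ℕ → Bool) × (ℕ → Bool) => S.X m p.1 - S.X m p.2 :=
    (h1.comp measurable_fst).sub (h1.comp measurable_snd)
  exact Real.measurable_log.comp (continuous_abs.measurable.comp h2)

lemma logX_le (m : ℕ) (p : (ℕ → Bool) × (ℕ → Bool)) :
    Real.log |S.X m p.1 - S.X m p.2| ≤ Real.log (2 * S.b m) := by
  rcases eq_or_ne (S.X m p.1 - S.X m p.2) 0 with h | h
  · rw [h, abs_zero, Real.log_zero]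
    exact Real.log_nonneg (by linarith [S.two_le_b m])
  · apply Real.log_le_log (abs_pos.mpr h)
    have h1 := abs_le.mp (Sys.abs_X_le (S := S) m p.1)
    have h2 := abs_le.mp (Sys.abs_X_le (S := S) m p.2)
    rw [abs_le]
    constructor <;> linarith

lemma lintegral_le (m : ℕ) :
    ∫⁻ p, ENNReal.ofReal (Real.log (2 * S.b m) - Real.log |S.X m p.1 - S.X m p.2|)
      ∂(beta.prod beta) ≤ ENNReal.ofReal (Real.log (2 * S.b m)) := by
  set C := Real.log (2 * S.b m) with hC
  have hδ : ∀ n : ℕ, 0 < ((1 : ℝ) / 2) ^ n := fun n => by positivity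
  have hδ1 : ∀ n : ℕ, ((1 : ℝ) / 2) ^ n ≤ 1 := fun n => pow_le_one₀ (by norm_num) (by norm_num)
  let f : ℕ → (ℕ → Bool) × (ℕ → Bool) → ℝ≥0∞ := fun n p =>
    ENNReal.ofReal (C - G S ((1 / 2) ^ n) m p)
  have hf : ∀ n, Measurable (f n) := fun n =>
    ENNReal.measurable_ofReal.comp (measurable_const.sub (continuous_G (hδ n) m).measurable)
  have hlim : ∀ᵐ p ∂(beta.prod beta), liminf (fun n => f n p) atTop =
      ENNReal.ofReal (C - Real.log |S.X m p.1 - S.X m p.2|) := by
    have hd : ∀ᵐ p ∂(beta.prod beta), ¬ (p.1 = p.2) := by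
      rw [ae_iff]
      simpa using diag_null
    filter_upwards [hd] with p hp
    apply Tendsto.liminf_eq
    have h1 : 0 < |S.X m p.1 - S.X m p.2| :=
      abs_pos.mpr (sub_ne_zero.mpr fun h => hp (Sys.X_injective m h))
    have h2 : ∀ᶠ n : ℕ in atTop, ((1 : ℝ) / 2) ^ n < |S.X m p.1 - S.X m p.2| :=
      (tendsto_pow_atTop_nhds_zero_of_lt_one (by norm_num) (by norm_num)).eventually_lt_const h1
    apply tendsto_const_nhds.congr'
    filter_upwards [h2] with n hn
    change _ = ENNReal.ofReal (C - G S ((1 / 2) ^ n) m p)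
    unfold G
    rw [max_eq_left hn.le]
  calc ∫⁻ p, ENNReal.ofReal (C - Real.log |S.X m p.1 - S.X m p.2|) ∂(beta.prod beta)
      = ∫⁻ p, liminf (fun n => f n p) atTop ∂(beta.prod beta) :=
        (lintegral_congr_ae hlim).symm
    _ ≤ liminf (fun n => ∫⁻ p, f n p ∂(beta.prod beta)) atTop := lintegral_liminf_le hf
    _ ≤ ENNReal.ofReal C := by
        refine liminf_le_of_frequently_le' (Filter.Frequently.of_forall fun n => ?_)
        change ∫⁻ p, ENNReal.ofReal (C - G S ((1 / 2) ^ n) m p) ∂(beta.prod beta) ≤ _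
        have h1 : Integrable (fun p => C - G S ((1 / 2) ^ n) m p) (beta.prod beta) :=
          (integrable_const _).sub (integrable_G (hδ n) (hδ1 n) m)
        rw [← ofReal_integral_eq_lintegral_ofReal h1 (Filter.Eventually.of_forall fun p =>
          sub_nonneg.mpr (G_le (hδ n) (hδ1 n) m p))]
        apply ENNReal.ofReal_le_ofReal
        rw [integral_sub (integrable_const _) (integrable_G (hδ n) (hδ1 n) m), integral_const]
        have h2 := En_nonneg (S := S) (hδ n) (hδ1 n) m
        unfold En at h2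
        simp only [probReal_univ, one_smul]
        linarith

lemma integrable_logX (m : ℕ) : Integrable (fun p : (ℕ → Bool) × (ℕ → Bool) =>
    Real.log |S.X m p.1 - S.X m p.2|) (beta.prod beta) := by
  have h1 : Integrable (fun p : (ℕ → Bool) × (ℕ → Bool) =>
      Real.log (2 * S.b m) - Real.log |S.X m p.1 - S.X m p.2|) (beta.prod beta) := by
    rw [← lintegral_ofReal_ne_top_iff_integrable]
    · exact ((lintegral_le m).trans_lt ENNReal.ofReal_lt_top).ne
    · exact (measurable_const.sub (measurable_logX m)).aestronglyMeasurable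
    · exact Filter.Eventually.of_forall fun p => sub_nonneg.mpr (logX_le m p)
  have h2 := (integrable_const (Real.log (2 * S.b m))).sub h1
  refine h2.congr (Filter.Eventually.of_forall fun p => ?_)
  simp

lemma integral_logX_nonneg (m : ℕ) :
    0 ≤ ∫ p, Real.log |S.X m p.1 - S.X m p.2| ∂(beta.prod beta) := by
  have hC : 0 ≤ Real.log (2 * S.b m) := Real.log_nonneg (by linarith [S.two_le_b m])
  have i1 := integrable_logX (S := S) m
  have h1 : Integrable (fun p : (ℕ → Bool) × (ℕ → Bool) =>
      Real.log (2 * S.b m) - Real.log |S.X m p.1 - S.X m p.2|) (beta.prod beta) :=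
    (integrable_const _).sub i1
  have h2 := lintegral_le (S := S) m
  rw [← ofReal_integral_eq_lintegral_ofReal h1 (Filter.Eventually.of_forall fun p =>
      sub_nonneg.mpr (logX_le m p)), ENNReal.ofReal_le_ofReal_iff hC,
    integral_sub (integrable_const _) i1, integral_const] at h2
  simp only [probReal_univ, one_smul] at h2
  linarith

/-! ### The measure `om` on the complex plane -/

variable (S)

/-- the point of the Julia set as a complex number -/
noncomputable def XC (e : ℕ → Bool) : ℂ := ((S.X 0 e : ℝ) : ℂ)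

/-- the law of `X 0`, on the complex plane -/
noncomputable def om : Measure ℂ := (S.omR 0).map (fun x : ℝ => (x : ℂ))

lemma continuous_XC : Continuous (XC S) := Complex.continuous_ofReal.comp (Sys.continuous_X 0)

lemma om_eq : om S = beta.map (XC S) := by
  unfold om Sys.omR
  rw [Measure.map_map Complex.measurable_ofReal (Sys.continuous_X 0).measurable]
  rfl

instance : IsProbabilityMeasure (om S) := by
  rw [om_eq]
  exact Measure.isProbabilityMeasure_map (continuous_XC S).aemeasurable

lemma XC_injective : Function.Injective (XC S) := fun _ _ h =>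
  Sys.X_injective 0 (Complex.ofReal_injective h)

lemma range_XC : Set.range (XC S) = S.K := by
  ext z
  constructor
  · rintro ⟨e, rfl⟩
    exact ⟨S.X 0 e, ⟨e, rfl⟩, rfl⟩
  · rintro ⟨x, ⟨e, rfl⟩, rfl⟩
    exact ⟨e, rfl⟩

instance : NullSingletonClass (om S) := by
  constructor
  intro z
  rw [om_eq, Measure.map_apply (continuous_XC S).measurable (measurableSet_singleton z)]
  rcases Set.eq_empty_or_nonempty (XC S ⁻¹' {z}) with h | ⟨e, he⟩
  · rw [h, measure_empty]
  · have h1 : XC S ⁻¹' {z} ⊆ {e} := by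
      intro e' he'
      rw [Set.mem_preimage, Set.mem_singleton_iff] at he he'
      exact XC_injective S (he'.trans he.symm)
    exact measure_mono_null h1 (beta_singleton e)

theorem om_compl : om S S.Kᶜ = 0 := by
  rw [om_eq, Measure.map_apply (continuous_XC S).measurable S.isCompact_K.isClosed.measurableSet.compl]
  have h1 : XC S ⁻¹' S.Kᶜ = ∅ := by
    ext e
    simp only [Set.mem_preimage, Set.mem_compl_iff, Set.mem_empty_iff_false, iff_false, not_not]
    rw [← range_XC]
    exact ⟨e, rfl⟩
  rw [h1, measure_empty]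

lemma om_prod : (om S).prod (om S) = (beta.prod beta).map (Prod.map (XC S) (XC S)) := by
  rw [om_eq, Measure.map_prod_map _ _ (continuous_XC S).measurable (continuous_XC S).measurable]

lemma norm_XC (p : (ℕ → Bool) × (ℕ → Bool)) :
    Real.log ‖(Prod.map (XC S) (XC S) p).1 - (Prod.map (XC S) (XC S) p).2‖ =
      Real.log |S.X 0 p.1 - S.X 0 p.2| := by
  have h1 : (Prod.map (XC S) (XC S) p).1 - (Prod.map (XC S) (XC S) p).2 =
      ((S.X 0 p.1 - S.X 0 p.2 : ℝ) : ℂ) := by
    rw [Complex.ofReal_sub]
    rfl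
  rw [h1, Complex.norm_real, Real.norm_eq_abs]

lemma measurable_kernel : Measurable fun p : ℂ × ℂ => Real.log ‖p.1 - p.2‖ := by fun_prop

lemma measurable_pair : Measurable (Prod.map (XC S) (XC S)) :=
  (continuous_XC S).measurable.prodMap (continuous_XC S).measurable

theorem om_integrable :
    Integrable (fun p : ℂ × ℂ => Real.log ‖p.1 - p.2‖) ((om S).prod (om S)) := by
  rw [om_prod, integrable_map_measure measurable_kernel.aestronglyMeasurable
    (measurable_pair S).aemeasurable]
  refine (integrable_logX (S := S) 0).congr (Filter.Eventually.of_forall fun p => ?_)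
  exact (norm_XC S p).symm

theorem om_energy : ∫ p, Real.log ‖p.1 - p.2‖ ∂((om S).prod (om S)) = 0 := by
  apply le_antisymm (energy_nonpos S (om S) (om_compl S) (om_integrable S))
  rw [om_prod, integral_map (measurable_pair S).aemeasurable
    measurable_kernel.aestronglyMeasurable]
  have h1 := integral_logX_nonneg (S := S) 0
  refine h1.trans_eq (integral_congr_ae (Filter.Eventually.of_forall fun p => ?_))
  exact (norm_XC S p).symm

lemma beta_cylinder (e : ℕ → Bool) (m : ℕ) :
    beta (Set.pi (Finset.range m : Set ℕ) (fun i => {e i})) = (2⁻¹ : ℝ≥0∞) ^ m := by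
  unfold beta
  rw [Measure.infinitePi_pi _ (fun k _ => measurableSet_singleton _)]
  simp [coin_singleton]

lemma beta_open (e : ℕ → Bool) (U : Set (ℕ → Bool)) (hU : U ∈ 𝓝 e) : 0 < beta U := by
  rw [nhds_pi, Filter.mem_pi] at hU
  obtain ⟨I, hI, t, ht, hsub⟩ := hU
  obtain ⟨m, hm⟩ : ∃ m : ℕ, ∀ i ∈ I, i < m := by
    obtain ⟨m, hm⟩ := hI.bddAbove
    exact ⟨m + 1, fun i hi => Nat.lt_succ_of_le (hm hi)⟩
  have h1 : Set.pi (Finset.range m : Set ℕ) (fun i => {e i}) ⊆ U := by
    refine subset_trans ?_ hsub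
    intro e' he' i hi
    have h2 := he' i (by simpa using hm i hi)
    rw [Set.mem_singleton_iff] at h2
    rw [h2]
    exact mem_of_mem_nhds (ht i)
  refine lt_of_lt_of_le ?_ (measure_mono h1)
  rw [beta_cylinder]
  exact ENNReal.pow_pos (ENNReal.inv_pos.mpr (by norm_num)) m

theorem om_support : (om S).support = S.K := by
  apply Set.Subset.antisymm
  · apply Measure.support_subset_of_isClosed S.isCompact_K.isClosed
    rw [mem_ae_iff]
    exact om_compl S
  · intro z hz
    rw [← range_XC] at hz
    obtain ⟨e, rfl⟩ := hz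
    rw [Measure.mem_support_iff_forall]
    intro U hU
    obtain ⟨V, hVU, hVo, hV⟩ := mem_nhds_iff.mp hU
    refine lt_of_lt_of_le ?_ (measure_mono hVU)
    rw [om_eq, Measure.map_apply (continuous_XC S).measurable hVo.measurableSet]
    exact beta_open e _ ((continuous_XC S).continuousAt.preimage_mem_nhds (hVo.mem_nhds hV))

end Pool.Agent.Lib_helper88.WE
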