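import Pool.Agent.Lib_helper88.WE.Equil

/-!
# The potential of the equilibrium measure vanishes on the Julia set
-/

set_option autoImplicit false

namespace Pool.Agent.Lib_helper88.WE

open MeasureTheory Finset Filter
open scoped Topology ENNReal

open Pool.Agent.Lib_helper39.Widom Pool.Agent.WidomLib

variable (S : Sys)

/-- the truncated potential -/
noncomputable def Ut (δ : ℝ) (m : ℕ) (a : ℕ → Bool) : ℝ := ∫ e, G S δ m (a, e) ∂beta

variable {S}

lemma integrable_Gs {δ : ℝ} (hδ : 0 < δ) (hδ1 : δ ≤ 1) (m : ℕ) (a : ℕ → Bool) :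
    Integrable (fun e => G S δ m (a, e)) beta := by
  apply Integrable.of_bound ((continuous_G hδ m).comp (by fun_prop)).aestronglyMeasurable
    (max |Real.log δ| |Real.log (2 * S.b m)|)
  refine Filter.Eventually.of_forall fun e => ?_
  rw [Real.norm_eq_abs]
  exact abs_le_max_abs_abs (le_G hδ m (a, e)) (G_le hδ hδ1 m (a, e))

lemma Ut_succ_le {δ : ℝ} (hδ : 0 < δ) (hδ1 : δ ≤ 1) (m : ℕ) (a : ℕ → Bool) :
    Ut S δ (m + 1) (shift a) ≤ 2 * Ut S δ m a := by
  have e1 : ∫ e, G S δ m (a, flip e) ∂beta = Ut S δ m a :=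
    integral_comp_mp mp_flip (g := fun e => G S δ m (a, e))
      (integrable_Gs hδ hδ1 m a).aestronglyMeasurable
  have e2 : ∫ e, G S δ (m + 1) (shift a, shift e) ∂beta = Ut S δ (m + 1) (shift a) :=
    integral_comp_mp mp_shift (g := fun e => G S δ (m + 1) (shift a, e))
      (integrable_Gs hδ hδ1 (m + 1) (shift a)).aestronglyMeasurable
  have i0 := integrable_Gs (S := S) hδ hδ1 m a
  have i1 : Integrable (fun e => G S δ m (a, flip e)) beta :=
    mp_flip.integrable_comp_of_integrable i0
  have i2 : Integrable (fun e => G S δ (m + 1) (shift a, shift e)) beta :=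
    mp_shift.integrable_comp_of_integrable (integrable_Gs (S := S) hδ hδ1 (m + 1) (shift a))
  have e3 : 2 * Ut S δ m a = ∫ e, (G S δ m (a, e) + G S δ m (a, flip e)) ∂beta := by
    rw [integral_add i0 i1, e1]
    unfold Ut
    ring
  rw [← e2, e3]
  apply integral_mono i2 (i0.add i1)
  intro e
  change G S δ (m + 1) (shift a, shift e) ≤ G S δ m (a, e) + G S δ m (a, flip e)
  unfold G
  simp only
  rw [X_flip, sub_neg_eq_add]
  have p1 : 0 < max |S.X m a - S.X m e| δ := hδ.trans_le (le_max_right _ _)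
  have p2 : 0 < max |S.X m a + S.X m e| δ := hδ.trans_le (le_max_right _ _)
  rw [← Real.log_mul p1.ne' p2.ne']
  apply Real.log_le_log (hδ.trans_le (le_max_right _ _))
  have h3 : S.X (m + 1) (shift a) - S.X (m + 1) (shift e) = S.X m a ^ 2 - S.X m e ^ 2 := by
    rw [Sys.X_sq, Sys.X_sq]
    ring
  rw [h3]
  apply max_le_mul _ hδ
  have := one_le_abs_X (S := S) m a
  have := abs_nonneg (S.X m e)
  linarith

/-- the iterated shift -/
def shiftI : ℕ → (ℕ → Bool) → (ℕ → Bool)
  | 0, a => a
  | j + 1, a => shiftI j (shift a)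

lemma Ut_add_le {δ : ℝ} (hδ : 0 < δ) (hδ1 : δ ≤ 1) (j : ℕ) : ∀ (m : ℕ) (a : ℕ → Bool),
    Ut S δ (m + j) (shiftI j a) ≤ 2 ^ j * Ut S δ m a := by
  induction j with
  | zero =>
    intro m a
    have h1 : shiftI 0 a = a := rfl
    rw [h1, add_zero, pow_zero, one_mul]
  | succ j ih =>
    intro m a
    have h1 := ih (m + 1) (shift a)
    have h2 := Ut_succ_le (S := S) hδ hδ1 m a
    have h0 : shiftI (j + 1) a = shiftI j (shift a) := rfl
    rw [h0, show m + (j + 1) = m + 1 + j by omega, pow_succ]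
    have h3 : (0 : ℝ) < 2 ^ j := by positivity
    have h4 := mul_le_mul_of_nonneg_left h2 h3.le
    linarith

lemma le_Ut {δ : ℝ} (hδ : 0 < δ) (hδ1 : δ ≤ 1) (m : ℕ) (a : ℕ → Bool) :
    Real.log δ ≤ Ut S δ m a := by
  have h1 : ∫ _e : (ℕ → Bool), Real.log δ ∂beta = Real.log δ := by
    rw [integral_const]
    simp
  rw [← h1]
  exact integral_mono (integrable_const _) (integrable_Gs hδ hδ1 m a) fun e => le_G hδ m (a, e)

lemma Ut_nonneg {δ : ℝ} (hδ : 0 < δ) (hδ1 : δ ≤ 1) (m : ℕ) (a : ℕ → Bool) : 0 ≤ Ut S δ m a := by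
  have h1 : ∀ j : ℕ, Real.log δ * (1 / 2) ^ j ≤ Ut S δ m a := by
    intro j
    have h2 := (le_Ut (S := S) hδ hδ1 (m + j) (shiftI j a)).trans (Ut_add_le hδ hδ1 j m a)
    have h3 : (0 : ℝ) < 2 ^ j := by positivity
    rw [one_div_pow, mul_one_div, div_le_iff₀ h3, mul_comm]
    exact h2
  have h2 : Tendsto (fun j : ℕ => Real.log δ * ((1 : ℝ) / 2) ^ j) atTop (𝓝 (Real.log δ * 0)) :=
    (tendsto_pow_atTop_nhds_zero_of_lt_one (by norm_num) (by norm_num)).const_mul _
  rw [mul_zero] at h2
  exact le_of_tendsto' h2 h1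

lemma measurable_logXs (m : ℕ) (a : ℕ → Bool) : Measurable fun e : ℕ → Bool =>
    Real.log |S.X m a - S.X m e| := by
  have h1 : Measurable fun e : ℕ → Bool => S.X m a - S.X m e :=
    measurable_const.sub (Sys.continuous_X (S := S) m).measurable
  exact Real.measurable_log.comp (continuous_abs.measurable.comp h1)

lemma ae_ne (a : ℕ → Bool) : ∀ᵐ e ∂beta, e ≠ a := by
  rw [ae_iff]
  have h1 : {e : ℕ → Bool | ¬ e ≠ a} = {a} := by
    ext e
    simp
  rw [h1]
  exact beta_singleton a

lemma lintegral_le_s (m : ℕ) (a : ℕ → Bool) :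
    ∫⁻ e, ENNReal.ofReal (Real.log (2 * S.b m) - Real.log |S.X m a - S.X m e|)
      ∂beta ≤ ENNReal.ofReal (Real.log (2 * S.b m)) := by
  set C := Real.log (2 * S.b m) with hC
  have hδ : ∀ n : ℕ, 0 < ((1 : ℝ) / 2) ^ n := fun n => by positivity
  have hδ1 : ∀ n : ℕ, ((1 : ℝ) / 2) ^ n ≤ 1 := fun n => pow_le_one₀ (by norm_num) (by norm_num)
  let f : ℕ → (ℕ → Bool) → ℝ≥0∞ := fun n e =>
    ENNReal.ofReal (C - G S ((1 / 2) ^ n) m (a, e))
  have hf : ∀ n, Measurable (f n) := fun n =>
    ENNReal.measurable_ofReal.comp (measurable_const.sub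
      ((continuous_G (hδ n) m).comp (by fun_prop)).measurable)
  have hlim : ∀ᵐ e ∂beta, liminf (fun n => f n e) atTop =
      ENNReal.ofReal (C - Real.log |S.X m a - S.X m e|) := by
    filter_upwards [ae_ne a] with e he
    apply Tendsto.liminf_eq
    have h1 : 0 < |S.X m a - S.X m e| :=
      abs_pos.mpr (sub_ne_zero.mpr fun h => he (Sys.X_injective m h).symm)
    have h2 : ∀ᶠ n : ℕ in atTop, ((1 : ℝ) / 2) ^ n < |S.X m a - S.X m e| :=
      (tendsto_pow_atTop_nhds_zero_of_lt_one (by norm_num) (by norm_num)).eventually_lt_const h1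
    apply tendsto_const_nhds.congr'
    filter_upwards [h2] with n hn
    change _ = ENNReal.ofReal (C - G S ((1 / 2) ^ n) m (a, e))
    unfold G
    rw [max_eq_left hn.le]
  calc ∫⁻ e, ENNReal.ofReal (C - Real.log |S.X m a - S.X m e|) ∂beta
      = ∫⁻ e, liminf (fun n => f n e) atTop ∂beta :=
        (lintegral_congr_ae hlim).symm
    _ ≤ liminf (fun n => ∫⁻ e, f n e ∂beta) atTop := lintegral_liminf_le hf
    _ ≤ ENNReal.ofReal C := by
        refine liminf_le_of_frequently_le' (Filter.Frequently.of_forall fun n => ?_)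
        change ∫⁻ e, ENNReal.ofReal (C - G S ((1 / 2) ^ n) m (a, e)) ∂beta ≤ _
        have h1 : Integrable (fun e => C - G S ((1 / 2) ^ n) m (a, e)) beta :=
          (integrable_const _).sub (integrable_Gs (hδ n) (hδ1 n) m a)
        rw [← ofReal_integral_eq_lintegral_ofReal h1 (Filter.Eventually.of_forall fun e =>
          sub_nonneg.mpr (G_le (hδ n) (hδ1 n) m (a, e)))]
        apply ENNReal.ofReal_le_ofReal
        rw [integral_sub (integrable_const _) (integrable_Gs (hδ n) (hδ1 n) m a), integral_const]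
        have h2 := Ut_nonneg (S := S) (hδ n) (hδ1 n) m a
        unfold Ut at h2
        simp only [probReal_univ, one_smul]
        linarith

/-- the logarithm of the distance to a point of the Julia set is integrable -/
lemma integrable_logXs (m : ℕ) (a : ℕ → Bool) : Integrable (fun e : ℕ → Bool =>
    Real.log |S.X m a - S.X m e|) beta := by
  have h1 : Integrable (fun e : ℕ → Bool =>
      Real.log (2 * S.b m) - Real.log |S.X m a - S.X m e|) beta := by
    rw [← lintegral_ofReal_ne_top_iff_integrable]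
    · exact ((lintegral_le_s m a).trans_lt ENNReal.ofReal_lt_top).ne
    · exact (measurable_const.sub (measurable_logXs m a)).aestronglyMeasurable
    · exact Filter.Eventually.of_forall fun e => sub_nonneg.mpr (logX_le m (a, e))
  have h2 := (integrable_const (Real.log (2 * S.b m))).sub h1
  refine h2.congr (Filter.Eventually.of_forall fun e => ?_)
  simp

variable (S)

/-- the potential at a point of the Julia set -/
noncomputable def U (m : ℕ) (a : ℕ → Bool) : ℝ := ∫ e, Real.log |S.X m a - S.X m e| ∂beta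

variable {S}

lemma U_nonneg (m : ℕ) (a : ℕ → Bool) : 0 ≤ U S m a := by
  have hC : 0 ≤ Real.log (2 * S.b m) := Real.log_nonneg (by linarith [S.two_le_b m])
  have i1 := integrable_logXs (S := S) m a
  have h1 : Integrable (fun e : ℕ → Bool =>
      Real.log (2 * S.b m) - Real.log |S.X m a - S.X m e|) beta :=
    (integrable_const _).sub i1
  have h2 := lintegral_le_s (S := S) m a
  rw [← ofReal_integral_eq_lintegral_ofReal h1 (Filter.Eventually.of_forall fun e =>
      sub_nonneg.mpr (logX_le m (a, e))), ENNReal.ofReal_le_ofReal_iff hC,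
    integral_sub (integrable_const _) i1, integral_const] at h2
  simp only [probReal_univ, one_smul] at h2
  unfold U
  linarith

lemma U_le (m : ℕ) (a : ℕ → Bool) : U S m a ≤ Real.log (2 * S.b m) := by
  have h1 : ∫ _e : (ℕ → Bool), Real.log (2 * S.b m) ∂beta = Real.log (2 * S.b m) := by
    rw [integral_const]
    simp
  rw [← h1]
  exact integral_mono (integrable_logXs m a) (integrable_const _) fun e => logX_le m (a, e)

lemma two_mul_U (m : ℕ) (a : ℕ → Bool) : 2 * U S m a = U S (m + 1) (shift a) := by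
  have i0 := integrable_logXs (S := S) m a
  have e1 : ∫ e, Real.log |S.X m a - S.X m (flip e)| ∂beta = U S m a :=
    integral_comp_mp mp_flip (g := fun e => Real.log |S.X m a - S.X m e|)
      i0.aestronglyMeasurable
  have e2 : ∫ e, Real.log |S.X (m + 1) (shift a) - S.X (m + 1) (shift e)| ∂beta =
      U S (m + 1) (shift a) :=
    integral_comp_mp mp_shift (g := fun e => Real.log |S.X (m + 1) (shift a) - S.X (m + 1) e|)
      (integrable_logXs (m + 1) (shift a)).aestronglyMeasurable
  have i1 : Integrable (fun e => Real.log |S.X m a - S.X m (flip e)|) beta :=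
    mp_flip.integrable_comp_of_integrable i0
  have e3 : 2 * U S m a = ∫ e, (Real.log |S.X m a - S.X m e| +
      Real.log |S.X m a - S.X m (flip e)|) ∂beta := by
    rw [integral_add i0 i1, e1]
    unfold U
    ring
  rw [← e2, e3]
  apply integral_congr_ae
  filter_upwards [ae_ne a, ae_ne (flip a)] with e h1 h2
  have h3 : S.X m a - S.X m e ≠ 0 := sub_ne_zero.mpr fun h => h1 (Sys.X_injective m h).symm
  have h4 : S.X m a + S.X m e ≠ 0 := by
    intro h
    apply h2
    apply Sys.X_injective (S := S) m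
    rw [X_flip]
    linarith
  change Real.log |S.X m a - S.X m e| + Real.log |S.X m a - S.X m (flip e)| = _
  rw [X_flip, sub_neg_eq_add, ← Real.log_mul (abs_ne_zero.mpr h3) (abs_ne_zero.mpr h4), ← abs_mul]
  congr 2
  rw [show S.X (m + 1) (shift a) = S.X m a ^ 2 - S.c m by rw [Sys.X_sq]; ring,
    show S.X (m + 1) (shift e) = S.X m e ^ 2 - S.c m by rw [Sys.X_sq]; ring]
  ring

lemma pow_mul_U (j : ℕ) : ∀ (m : ℕ) (a : ℕ → Bool), 2 ^ j * U S m a = U S (m + j) (shiftI j a) := by
  induction j with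
  | zero =>
    intro m a
    have h1 : shiftI 0 a = a := rfl
    rw [h1, pow_zero, one_mul, add_zero]
  | succ j ih =>
    intro m a
    have h0 : shiftI (j + 1) a = shiftI j (shift a) := rfl
    rw [h0, show m + (j + 1) = m + 1 + j by omega, ← ih (m + 1) (shift a), ← two_mul_U, pow_succ]
    ring

/-- The potential vanishes on the Julia set. -/
theorem U_eq_zero (m : ℕ) (a : ℕ → Bool) : U S m a = 0 := by
  apply le_antisymm _ (U_nonneg m a)
  have h1 : ∀ j : ℕ, U S m a ≤ Real.log 2 * (1 / 2) ^ j +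
      2 ^ m * (Real.log (S.b (m + j)) / 2 ^ (m + j)) := by
    intro j
    have h2 := (pow_mul_U (S := S) j m a).le.trans (U_le (m + j) (shiftI j a))
    rw [Real.log_mul two_ne_zero (S.b_pos _).ne'] at h2
    have h3 : (0 : ℝ) < 2 ^ j := by positivity
    have h4 : U S m a ≤ (Real.log 2 + Real.log (S.b (m + j))) / 2 ^ j := by
      rw [le_div_iff₀ h3, mul_comm]
      exact h2
    refine h4.trans_eq ?_
    rw [pow_add, one_div_pow, add_div]
    field_simp
  have h2 : Tendsto (fun j : ℕ => Real.log (S.b (m + j)) / 2 ^ (m + j)) atTop (𝓝 0) := by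
    have h3 := S.small.comp (tendsto_add_atTop_nat m)
    refine h3.congr fun j => ?_
    simp only [Function.comp]
    rw [add_comm j m]
  have h3 : Tendsto (fun j : ℕ => Real.log 2 * ((1 : ℝ) / 2) ^ j +
      2 ^ m * (Real.log (S.b (m + j)) / 2 ^ (m + j))) atTop
      (𝓝 (Real.log 2 * 0 + 2 ^ m * 0)) :=
    ((tendsto_pow_atTop_nhds_zero_of_lt_one (by norm_num) (by norm_num)).const_mul _).add
      (h2.const_mul _)
  rw [mul_zero, mul_zero, add_zero] at h3
  exact ge_of_tendsto' h3 h1

lemma integral_abs_le (m : ℕ) (a : ℕ → Bool) :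
    ∫ e, ‖Real.log |S.X m a - S.X m e|‖ ∂beta ≤ 2 * Real.log (2 * S.b m) := by
  have hC : 0 ≤ Real.log (2 * S.b m) := Real.log_nonneg (by linarith [S.two_le_b m])
  have i1 := integrable_logXs (S := S) m a
  have h1 : ∀ e, ‖Real.log |S.X m a - S.X m e|‖ ≤
      2 * Real.log (2 * S.b m) - Real.log |S.X m a - S.X m e| := by
    intro e
    have h2 : Real.log |S.X m a - S.X m e| ≤ Real.log (2 * S.b m) := logX_le (S := S) m (a, e)
    rw [Real.norm_eq_abs, abs_le]
    constructor <;> linarith
  have h2 : ∫ e, (2 * Real.log (2 * S.b m) - Real.log |S.X m a - S.X m e|) ∂beta =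
      2 * Real.log (2 * S.b m) := by
    rw [integral_sub (integrable_const _) i1, integral_const]
    have h3 := U_eq_zero (S := S) m a
    unfold U at h3
    rw [h3]
    simp
  rw [← h2]
  exact integral_mono i1.norm ((integrable_const _).sub i1) h1

/-! ### On the complex plane -/

variable (S)

lemma norm_sub_XC (a e : ℕ → Bool) : ‖XC S a - XC S e‖ = |S.X 0 a - S.X 0 e| := by
  unfold XC
  rw [← Complex.ofReal_sub, Complex.norm_real, Real.norm_eq_abs]

lemma measurable_log_norm (z : ℂ) : Measurable fun w : ℂ => Real.log ‖z - w‖ := by fun_prop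

/-- The logarithm of the distance to a point of `K` is integrable with respect to `om`. -/
theorem om_pot_integrable (z : ℂ) (hz : z ∈ S.K) :
    Integrable (fun w : ℂ => Real.log ‖z - w‖) (om S) := by
  rw [← range_XC] at hz
  obtain ⟨a, rfl⟩ := hz
  rw [om_eq, integrable_map_measure (measurable_log_norm _).aestronglyMeasurable
    (continuous_XC S).measurable.aemeasurable]
  refine (integrable_logXs (S := S) 0 a).congr (Filter.Eventually.of_forall fun e => ?_)
  have h1 := norm_sub_XC S a e
  change Real.log |S.X 0 a - S.X 0 e| = Real.log ‖XC S a - XC S e‖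
  rw [h1]

/-- The potential of `om` is zero on `K`. -/
theorem om_pot (z : ℂ) (hz : z ∈ S.K) : ∫ w, Real.log ‖z - w‖ ∂(om S) = 0 := by
  rw [← range_XC] at hz
  obtain ⟨a, rfl⟩ := hz
  rw [om_eq, integral_map (continuous_XC S).measurable.aemeasurable
    (measurable_log_norm _).aestronglyMeasurable]
  rw [← U_eq_zero (S := S) 0 a]
  unfold U
  apply integral_congr_ae (Filter.Eventually.of_forall fun e => ?_)
  change Real.log ‖XC S a - XC S e‖ = Real.log |S.X 0 a - S.X 0 e|
  rw [norm_sub_XC]

theorem om_pot_bound (z : ℂ) (hz : z ∈ S.K) :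
    ∫ w, ‖Real.log ‖z - w‖‖ ∂(om S) ≤ 2 * Real.log (2 * S.b 0) := by
  rw [← range_XC] at hz
  obtain ⟨a, rfl⟩ := hz
  rw [om_eq, integral_map (continuous_XC S).measurable.aemeasurable
    (measurable_log_norm _).norm.aestronglyMeasurable]
  refine le_trans (le_of_eq ?_) (integral_abs_le (S := S) 0 a)
  apply integral_congr_ae (Filter.Eventually.of_forall fun e => ?_)
  change ‖Real.log ‖XC S a - XC S e‖‖ = ‖Real.log |S.X 0 a - S.X 0 e|‖
  rw [norm_sub_XC]

/-- The mixed energy of `om` and a probability measure on `K` exists. -/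
theorem mixed_integrable (nu : Measure ℂ) [IsProbabilityMeasure nu] (h : nu S.Kᶜ = 0) :
    Integrable (fun p : ℂ × ℂ => Real.log ‖p.1 - p.2‖) (nu.prod (om S)) := by
  have hae : ∀ᵐ z ∂nu, z ∈ S.K := by
    rw [ae_iff]
    exact h
  rw [integrable_prod_iff measurable_kernel.aestronglyMeasurable]
  refine ⟨?_, ?_⟩
  · filter_upwards [hae] with z hz
    exact om_pot_integrable S z hz
  · apply Integrable.of_bound (C := 2 * Real.log (2 * S.b 0))
    · exact (measurable_kernel.norm.aestronglyMeasurable (μ := nu.prod (om S))).integral_prod_right'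
    · filter_upwards [hae] with z hz
      rw [Real.norm_eq_abs, abs_of_nonneg (integral_nonneg fun _ => norm_nonneg _)]
      exact om_pot_bound S z hz

/-- The mixed energy of `om` and a probability measure on `K` is zero. -/
theorem mixed_zero (nu : Measure ℂ) [IsProbabilityMeasure nu] (h : nu S.Kᶜ = 0) :
    ∫ p, Real.log ‖p.1 - p.2‖ ∂(nu.prod (om S)) = 0 := by
  have hae : ∀ᵐ z ∂nu, z ∈ S.K := by
    rw [ae_iff]
    exact h
  rw [integral_prod _ (mixed_integrable S nu h)]
  rw [← integral_zero ℂ ℝ (μ := nu)]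
  apply integral_congr_ae
  filter_upwards [hae] with z hz
  exact om_pot S z hz

end Pool.Agent.Lib_helper88.WE
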