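import Pool.Agent.WidomLib.Basic

/-!
# The energy of a measure on a set which carries small monic polynomials

`energy_le`: if `P j`, `j < n`, are monic polynomials of degree `j` which are bounded by `B j` on `K`, then
`(n (n - 1) / 2) ∬ log |x - y| dρ dρ ≤ log n! + ∑ log B j` for every probability measure `ρ` on `K` without atoms
and with finite energy (average of the logarithm of the Vandermonde determinant of `n` independent points).
-/

set_option autoImplicit false

namespace Pool.Agent.Lib_helper88.WE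

open MeasureTheory Finset

/-- the Vandermonde determinant -/
theorem vand_le {n : ℕ} {K : Set ℂ} {P : Fin n → Polynomial ℂ} (hm : ∀ j, (P j).Monic)
    (hd : ∀ j, (P j).natDegree = j) {B : Fin n → ℝ}
    (hB : ∀ j, ∀ z ∈ K, ‖(P j).eval z‖ ≤ B j) (v : Fin n → ℂ) (hv : ∀ i, v i ∈ K) :
    ∏ i : Fin n, ∏ j ∈ Ioi i, ‖v j - v i‖ ≤ n.factorial * ∏ j, B j := by
  have h1 := Matrix.det_eval_matrixOfPolynomials_eq_det_vandermonde v P hd hm
  rw [Matrix.det_vandermonde] at h1
  have h2 : ∏ i : Fin n, ∏ j ∈ Ioi i, ‖v j - v i‖ =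
      ‖(Matrix.of (fun i j => (P j).eval (v i))).det‖ := by
    rw [← h1, norm_prod]
    exact Finset.prod_congr rfl fun i _ => (norm_prod _ _).symm
  rw [h2, Matrix.det_apply]
  calc ‖∑ τ : Equiv.Perm (Fin n), Equiv.Perm.sign τ • ∏ i, (Matrix.of (fun i j => (P j).eval (v i))) (τ i) i‖
      ≤ ∑ τ : Equiv.Perm (Fin n), ‖Equiv.Perm.sign τ • ∏ i, (Matrix.of (fun i j => (P j).eval (v i))) (τ i) i‖ :=
        norm_sum_le _ _
    _ ≤ ∑ _τ : Equiv.Perm (Fin n), ∏ j, B j := by
        refine Finset.sum_le_sum fun τ _ => ?_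
        have h3 : ‖Equiv.Perm.sign τ • ∏ i, (Matrix.of (fun i j => (P j).eval (v i))) (τ i) i‖ =
            ∏ i, ‖(P i).eval (v (τ i))‖ := by
          rw [Units.smul_def, zsmul_eq_mul, norm_mul, norm_prod]
          have h4 : ‖(((Equiv.Perm.sign τ : ℤˣ) : ℤ) : ℂ)‖ = 1 := by
            rcases Int.units_eq_one_or (Equiv.Perm.sign τ) with h | h <;> rw [h] <;> simp
          rw [h4, one_mul]
          rfl
        rw [h3]
        exact Finset.prod_le_prod (fun i _ => norm_nonneg _) fun i _ => hB i _ (hv _)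
    _ = n.factorial * ∏ j, B j := by
        rw [Finset.sum_const, Finset.card_univ, Fintype.card_perm, Fintype.card_fin, nsmul_eq_mul]

/-- the law of two coordinates -/
theorem map_pair {n : ℕ} (ρ : Measure ℂ) [IsProbabilityMeasure ρ] (i j : Fin n) (h : i ≠ j) :
    (Measure.pi fun _ : Fin n => ρ).map (fun v => (v i, v j)) = ρ.prod ρ := by
  have h1 : ProbabilityTheory.iIndepFun (fun (i : Fin n) (v : Fin n → ℂ) => v i)
      (Measure.pi fun _ : Fin n => ρ) :=
    ProbabilityTheory.iIndepFun_pi (X := fun _ => id) fun _ => aemeasurable_id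
  have h2 := h1.indepFun h
  rw [ProbabilityTheory.indepFun_iff_map_prod_eq_prod_map_map (measurable_pi_apply i).aemeasurable
    (measurable_pi_apply j).aemeasurable] at h2
  rw [h2, (measurePreserving_eval (fun _ : Fin n => ρ) i).map_eq,
    (measurePreserving_eval (fun _ : Fin n => ρ) j).map_eq]

theorem card_pairs (n : ℕ) : ∑ i : Fin n, ((Ioi i).card : ℝ) = (n : ℝ) * (n - 1) / 2 := by
  have h1 : ∀ i : Fin n, ((Ioi i).card : ℝ) = (n : ℝ) - 1 - (i : ℕ) := by
    intro i
    rw [Fin.card_Ioi]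
    have h2 : (i : ℕ) ≤ n - 1 := by omega
    have h3 : 1 ≤ n := by omega
    rw [Nat.cast_sub h2, Nat.cast_sub h3, Nat.cast_one]
  rw [Finset.sum_congr rfl fun i _ => h1 i, Fin.sum_univ_eq_sum_range (fun i => (n : ℝ) - 1 - (i : ℕ)) n,
    Finset.sum_sub_distrib, Finset.sum_const, Finset.card_range, nsmul_eq_mul]
  have h4 : ∀ m : ℕ, ∑ i ∈ range m, ((i : ℕ) : ℝ) = (m : ℝ) * (m - 1) / 2 := by
    intro m
    induction m with
    | zero => simp
    | succ m ih =>
      rw [Finset.sum_range_succ, ih]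
      push_cast
      ring
  rw [h4]
  ring

/-- the upper bound of the mean of the logarithm of the distance -/
theorem energy_le {n : ℕ} {K : Set ℂ} {P : Fin n → Polynomial ℂ} (hm : ∀ j, (P j).Monic)
    (hd : ∀ j, (P j).natDegree = j) {B : Fin n → ℝ} (hB1 : ∀ j, 1 ≤ B j)
    (hB : ∀ j, ∀ z ∈ K, ‖(P j).eval z‖ ≤ B j) (ρ : Measure ℂ) [IsProbabilityMeasure ρ]
    [NullSingletonClass ρ] (hK : ρ Kᶜ = 0)
    (hint : Integrable (fun p : ℂ × ℂ => Real.log ‖p.1 - p.2‖) (ρ.prod ρ)) :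
    ((n : ℝ) * (n - 1) / 2) * ∫ p, Real.log ‖p.1 - p.2‖ ∂(ρ.prod ρ) ≤
      Real.log n.factorial + ∑ j, Real.log (B j) := by
  set π := Measure.pi fun _ : Fin n => ρ with hπ
  have hmp : ∀ i j : Fin n, i ≠ j → MeasurePreserving (fun v : Fin n → ℂ => (v i, v j)) π (ρ.prod ρ) :=
    fun i j h => ⟨(measurable_pi_apply i).prodMk (measurable_pi_apply j), map_pair ρ i j h⟩
  have hmeas : Measurable fun p : ℂ × ℂ => Real.log ‖p.1 - p.2‖ := by fun_prop
  have hI : ∀ i j : Fin n, i ≠ j → ∫ v : Fin n → ℂ, Real.log ‖v i - v j‖ ∂π =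
      ∫ p, Real.log ‖p.1 - p.2‖ ∂(ρ.prod ρ) := by
    intro i j h
    rw [← (hmp i j h).map_eq, integral_map (hmp i j h).aemeasurable]
    · rw [(hmp i j h).map_eq]
      exact hmeas.aestronglyMeasurable
  have hInt : ∀ i j : Fin n, i ≠ j → Integrable (fun v : Fin n → ℂ => Real.log ‖v i - v j‖) π := by
    intro i j h
    have h1 := (hmp i j h).integrable_comp_of_integrable hint
    exact h1
  have hae1 : ∀ i : Fin n, ∀ᵐ v ∂π, v i ∈ K := by
    intro i
    have h1 : ∀ᵐ z ∂ρ, z ∈ K := by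
      rw [ae_iff]
      exact hK
    exact (measurePreserving_eval (fun _ : Fin n => ρ) i).quasiMeasurePreserving.ae h1
  have hae2 : ∀ i j : Fin n, ∀ᵐ v ∂π, i ≠ j → v i ≠ v j := by
    intro i j
    by_cases h : i = j
    · exact Filter.Eventually.of_forall fun v h' => absurd h h'
    · have h1 : ∀ᵐ p ∂(ρ.prod ρ), p.1 ≠ p.2 := by
        rw [ae_iff]
        have h2 := WidomLib.prod_diag_null ρ
        simpa using h2
      filter_upwards [(hmp i j h).quasiMeasurePreserving.ae h1] with v hv _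
      exact hv
  have hsum : ∫ v, ∑ i : Fin n, ∑ j ∈ Ioi i, Real.log ‖v j - v i‖ ∂π =
      ((n : ℝ) * (n - 1) / 2) * ∫ p, Real.log ‖p.1 - p.2‖ ∂(ρ.prod ρ) := by
    rw [integral_finsetSum _ fun i _ => integrable_finsetSum _ fun j hj => hInt j i (mem_Ioi.1 hj).ne']
    rw [← card_pairs, Finset.sum_mul]
    refine Finset.sum_congr rfl fun i _ => ?_
    rw [integral_finsetSum _ fun j hj => hInt j i (mem_Ioi.1 hj).ne']
    rw [Finset.sum_congr rfl fun j hj => hI j i (mem_Ioi.1 hj).ne', Finset.sum_const, nsmul_eq_mul]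
  have hfac : (0 : ℝ) < n.factorial := by exact_mod_cast Nat.factorial_pos n
  have hBp : 0 < ∏ j, B j := Finset.prod_pos fun j _ => one_pos.trans_le (hB1 j)
  rw [← hsum]
  have hconst : ∫ _v : Fin n → ℂ, (Real.log n.factorial + ∑ j, Real.log (B j)) ∂π =
      Real.log n.factorial + ∑ j, Real.log (B j) := by
    rw [integral_const]
    simp
  rw [← hconst]
  refine integral_mono_ae (integrable_finsetSum _ fun i _ => integrable_finsetSum _ fun j hj =>
    hInt j i (mem_Ioi.1 hj).ne') (integrable_const _) ?_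
  have h1 : ∀ᵐ v ∂π, ∀ i, v i ∈ K := ae_all_iff.2 hae1
  have h2 : ∀ᵐ v ∂π, ∀ i j : Fin n, i ≠ j → v i ≠ v j := ae_all_iff.2 fun i => ae_all_iff.2 fun j => hae2 i j
  filter_upwards [h1, h2] with v hv1 hv2
  have hpos : ∀ i : Fin n, ∀ j ∈ Ioi i, 0 < ‖v j - v i‖ := fun i j hj =>
    norm_pos_iff.2 (sub_ne_zero.2 (hv2 j i (mem_Ioi.1 hj).ne'))
  have h3 : ∑ i : Fin n, ∑ j ∈ Ioi i, Real.log ‖v j - v i‖ =
      Real.log (∏ i : Fin n, ∏ j ∈ Ioi i, ‖v j - v i‖) := by
    rw [Real.log_prod fun i _ => (Finset.prod_pos fun j hj => hpos i j hj).ne']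
    refine Finset.sum_congr rfl fun i _ => ?_
    rw [Real.log_prod fun j hj => (hpos i j hj).ne']
  rw [h3, ← Real.log_prod fun j _ => (one_pos.trans_le (hB1 j)).ne', ← Real.log_mul hfac.ne' hBp.ne']
  exact Real.log_le_log (Finset.prod_pos fun i _ => Finset.prod_pos fun j hj => hpos i j hj)
    (vand_le hm hd hB v hv1)

end Pool.Agent.Lib_helper88.WE
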