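import Mathlib

/-!
# Product measures on sequences of digits with different frequencies are mutually singular
-/

set_option autoImplicit false

namespace Pool.Agent.Lib_helper88.WE

open MeasureTheory Finset Filter ProbabilityTheory
open scoped Topology ENNReal

/-- the indicator of the digit `true` -/
noncomputable def dg (b : Bool) : ℝ := if b then 1 else 0

lemma measurable_dg : Measurable dg := measurable_of_finite _

lemma integral_dg (μ : Measure Bool) [IsProbabilityMeasure μ] : ∫ b, dg b ∂μ = μ.real {true} := by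
  have h1 : dg = Set.indicator {true} (fun _ => (1 : ℝ)) := by
    funext b
    cases b <;> simp [dg]
  rw [h1, integral_indicator_const _ (measurableSet_singleton _), smul_eq_mul, mul_one]

lemma bool_ext {μ ν : Measure Bool} [IsProbabilityMeasure μ] [IsProbabilityMeasure ν]
    (h : μ {true} = ν {true}) : μ = ν := by
  have h2 : μ {false} = ν {false} := by
    have e : ({false} : Set Bool) = {true}ᶜ := by
      ext b
      cases b <;> simp
    rw [e, prob_compl_eq_one_sub (measurableSet_singleton _),
      prob_compl_eq_one_sub (measurableSet_singleton _), h]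
  apply Measure.ext_of_singleton
  intro b
  cases b
  · exact h2
  · exact h

/-- The frequency of the digit `true` after the `N`-th digit. -/
def Freq (N : ℕ) (p : ℝ) (e : ℕ → Bool) : Prop :=
  Tendsto (fun n : ℕ => (∑ i ∈ range n, dg (e (i + N))) / n) atTop (𝓝 p)

/-- The law of large numbers for the digits. -/
theorem ae_freq (κ : ℕ → Measure Bool) [∀ i, IsProbabilityMeasure (κ i)] (N : ℕ) (p : ℝ≥0∞)
    (hp : ∀ i, N ≤ i → κ i {true} = p) : ∀ᵐ e ∂(Measure.infinitePi κ), Freq N p.toReal e := by
  have hκ : ∀ i, κ (i + N) = κ N := fun i =>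
    bool_ext ((hp _ (Nat.le_add_left _ _)).trans (hp N le_rfl).symm)
  let X : ℕ → (ℕ → Bool) → ℝ := fun i e => dg (e (i + N))
  have hX : ∀ i, Measurable (X i) := fun i => measurable_dg.comp (measurable_pi_apply (i + N))
  have h0 : iIndepFun (fun (i : ℕ) (e : ℕ → Bool) => dg (e i)) (Measure.infinitePi κ) :=
    iIndepFun_infinitePi (X := fun _ => dg) fun _ => measurable_dg
  have h1 : iIndepFun X (Measure.infinitePi κ) :=
    h0.precomp (g := fun i => i + N) (fun a b h => by simpa using h)
  have hmap : ∀ i, (Measure.infinitePi κ).map (X i) = (κ N).map dg := by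
    intro i
    have h2 : X i = dg ∘ (Function.eval (i + N)) := rfl
    rw [h2, ← Measure.map_map measurable_dg (measurable_pi_apply (i + N)),
      (measurePreserving_eval_infinitePi κ (i + N)).map_eq, hκ i]
  have hid : ∀ i, IdentDistrib (X i) (X 0) (Measure.infinitePi κ) (Measure.infinitePi κ) :=
    fun i => ⟨(hX i).aemeasurable, (hX 0).aemeasurable, (hmap i).trans (hmap 0).symm⟩
  have hint : Integrable (X 0) (Measure.infinitePi κ) := by
    apply Integrable.of_bound (hX 0).aestronglyMeasurable 1
    refine Filter.Eventually.of_forall fun e => ?_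
    change ‖dg (e (0 + N))‖ ≤ 1
    cases e (0 + N) <;> simp [dg]
  have hmean : ∫ e, X 0 e ∂(Measure.infinitePi κ) = p.toReal := by
    have h3 : ∫ e, X 0 e ∂(Measure.infinitePi κ) = ∫ y, y ∂((Measure.infinitePi κ).map (X 0)) :=
      (integral_map (hX 0).aemeasurable aestronglyMeasurable_id).symm
    have h6 : ∫ y, y ∂((κ N).map dg) = ∫ b, dg b ∂(κ N) :=
      integral_map measurable_dg.aemeasurable aestronglyMeasurable_id
    rw [h3, hmap 0, h6, integral_dg (κ N), ← hp N le_rfl]
    rfl
  have h5 := strong_law_ae_real X hint (fun i j h => h1.indepFun h) hid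
  rw [hmean] at h5
  exact h5

/-- Product measures with different eventual frequencies are mutually singular. -/
theorem infinitePi_sing (κ κ' : ℕ → Measure Bool) [∀ i, IsProbabilityMeasure (κ i)]
    [∀ i, IsProbabilityMeasure (κ' i)] (N : ℕ) (p q : ℝ≥0∞) (hp : ∀ i, N ≤ i → κ i {true} = p)
    (hq : ∀ i, N ≤ i → κ' i {true} = q) (hpq : p ≠ q) :
    Measure.infinitePi κ ⟂ₘ Measure.infinitePi κ' := by
  have h1 := ae_freq κ N p hp
  have h2 := ae_freq κ' N q hq
  rw [ae_iff] at h1 h2
  have hp1 : p ≠ ∞ := by
    rw [← hp N le_rfl]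
    exact measure_ne_top _ _
  have hq1 : q ≠ ∞ := by
    rw [← hq N le_rfl]
    exact measure_ne_top _ _
  refine Measure.MutuallySingular.mk h1 h2 ?_
  intro e _
  by_contra hcon
  rw [Set.mem_union, not_or, Set.mem_ofPred_eq, Set.mem_ofPred_eq, not_not, not_not] at hcon
  have h3 := tendsto_nhds_unique hcon.1 hcon.2
  exact hpq ((ENNReal.toReal_eq_toReal_iff' hp1 hq1).mp h3)

/-- The images under an injective continuous map are mutually singular as well. -/
theorem map_sing {Ω : Type} [TopologicalSpace Ω] [CompactSpace Ω] [MeasurableSpace Ω]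
    [BorelSpace Ω] {μ ν : Measure Ω} (h : μ ⟂ₘ ν) {f : Ω → ℂ} (hf : Continuous f)
    (hinj : Function.Injective f) : μ.map f ⟂ₘ ν.map f := by
  have he : MeasurableEmbedding f := (hf.isClosedEmbedding hinj).measurableEmbedding
  obtain ⟨s, hs, h1, h2⟩ := h
  refine ⟨f '' s, he.measurableSet_image' hs, ?_, ?_⟩
  · rw [he.map_apply, Set.preimage_image_eq _ hinj]
    exact h1
  · rw [he.map_apply, Set.preimage_compl, Set.preimage_image_eq _ hinj]
    exact h2

end Pool.Agent.Lib_helper88.WE
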