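import Pool.Agent.Lib_helper39.Widom.Defs
import Pool.Agent.Lib_helper88.WE.Energy

/-!
# The capacity of the generalised Julia set is at most one

`energy_nonpos`: the mean of `log |x - y|` is at most `0` for every measure of finite energy on the Julia set.
-/

set_option autoImplicit false

namespace Pool.Agent.Lib_helper88.WE

open MeasureTheory Finset Filter
open scoped Topology

open Pool.Agent.Lib_helper39.Widom

variable (S : Sys)

/-- the monic polynomials of degree `j < 2 ^ k`, for the level `m` -/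
noncomputable def pl : ℕ → ℕ → ℕ → Polynomial ℂ
  | 0, _, _ => 1
  | k + 1, m, j => Polynomial.X ^ (j % 2) *
      (pl k (m + 1) (j / 2)).comp (Polynomial.X ^ 2 - Polynomial.C (S.c m : ℂ))

/-- the bounds for the polynomials -/
noncomputable def bd : ℕ → ℕ → ℕ → ℝ
  | 0, _, _ => 1
  | k + 1, m, j => S.b m ^ (j % 2) * bd k (m + 1) (j / 2)

theorem pl_spec (k : ℕ) : ∀ m j : ℕ, j < 2 ^ k → (pl S k m j).Monic ∧ (pl S k m j).natDegree = j := by
  induction k with
  | zero =>
    intro m j hj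
    have : j = 0 := by simpa using hj
    subst this
    exact ⟨Polynomial.monic_one, Polynomial.natDegree_one⟩
  | succ k ih =>
    intro m j hj
    obtain ⟨h1, h2⟩ := ih (m + 1) (j / 2) (by rw [pow_succ] at hj; omega)
    have h3 : (Polynomial.X ^ 2 - Polynomial.C (S.c m : ℂ)).Monic :=
      Polynomial.monic_X_pow_sub_C _ two_ne_zero
    have h4 : (Polynomial.X ^ 2 - Polynomial.C (S.c m : ℂ)).natDegree = 2 :=
      Polynomial.natDegree_X_pow_sub_C
    have h5 : ((pl S k (m + 1) (j / 2)).comp (Polynomial.X ^ 2 - Polynomial.C (S.c m : ℂ))).Monic :=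
      h1.comp h3 (by rw [h4]; exact two_ne_zero)
    have h6 : (pl S (k + 1) m j) = Polynomial.X ^ (j % 2) *
      (pl S k (m + 1) (j / 2)).comp (Polynomial.X ^ 2 - Polynomial.C (S.c m : ℂ)) := rfl
    rw [h6]
    refine ⟨(Polynomial.monic_X_pow _).mul h5, ?_⟩
    rw [(Polynomial.monic_X_pow _).natDegree_mul h5, Polynomial.natDegree_X_pow,
      Polynomial.natDegree_comp, h4, h2]
    omega

theorem bd_one_le (k : ℕ) : ∀ m j : ℕ, 1 ≤ bd S k m j := by
  induction k with
  | zero => intro m j; exact le_refl _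
  | succ k ih =>
    intro m j
    have h1 : (1 : ℝ) ≤ S.b m ^ (j % 2) := one_le_pow₀ (by linarith [S.two_le_b m])
    exact one_le_mul_of_one_le_of_one_le h1 (ih (m + 1) (j / 2))

theorem pl_le (k : ℕ) : ∀ (m j : ℕ) (e : ℕ → Bool),
    ‖(pl S k m j).eval ((S.X m e : ℝ) : ℂ)‖ ≤ bd S k m j := by
  induction k with
  | zero =>
    intro m j e
    have h1 : (pl S 0 m j) = 1 := rfl
    rw [h1, Polynomial.eval_one, norm_one]
    exact le_refl _
  | succ k ih =>
    intro m j e
    have h6 : (pl S (k + 1) m j) = Polynomial.X ^ (j % 2) *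
      (pl S k (m + 1) (j / 2)).comp (Polynomial.X ^ 2 - Polynomial.C (S.c m : ℂ)) := rfl
    have h7 : bd S (k + 1) m j = S.b m ^ (j % 2) * bd S k (m + 1) (j / 2) := rfl
    rw [h6, h7, Polynomial.eval_mul, Polynomial.eval_pow, Polynomial.eval_X, Polynomial.eval_comp,
      Polynomial.eval_sub, Polynomial.eval_pow, Polynomial.eval_X, Polynomial.eval_C, norm_mul,
      norm_pow]
    have h8 : ((S.X m e : ℝ) : ℂ) ^ 2 - (S.c m : ℂ) = ((S.X (m + 1) (shift e) : ℝ) : ℂ) := by
      have h9 := Sys.X_sq (S := S) m e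
      rw [← Complex.ofReal_pow, h9]
      push_cast
      ring
    rw [h8]
    have h10 : ‖((S.X m e : ℝ) : ℂ)‖ ≤ S.b m := by
      rw [Complex.norm_real, Real.norm_eq_abs]
      exact Sys.abs_X_le m e
    exact mul_le_mul (pow_le_pow_left₀ (norm_nonneg _) h10 _) (ih _ _ _) (norm_nonneg _)
      (pow_nonneg (S.b_pos m).le _)

theorem sum_range_two_mul (f : ℕ → ℝ) (n : ℕ) :
    ∑ j ∈ range (2 * n), f j = ∑ i ∈ range n, (f (2 * i) + f (2 * i + 1)) := by
  induction n with
  | zero => simp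
  | succ n ih =>
    rw [show 2 * (n + 1) = 2 * n + 1 + 1 by ring, Finset.sum_range_succ, Finset.sum_range_succ, ih,
      Finset.sum_range_succ]
    ring

theorem sum_log_bd (k : ℕ) : ∀ m : ℕ, 2 * ∑ j ∈ range (2 ^ k), Real.log (bd S k m j) =
    2 ^ k * ∑ i ∈ range k, Real.log (S.b (m + i)) := by
  induction k with
  | zero =>
    intro m
    simp [bd]
  | succ k ih =>
    intro m
    have h1 : ∀ j, Real.log (bd S (k + 1) m j) = (j % 2 : ℕ) * Real.log (S.b m) +
        Real.log (bd S k (m + 1) (j / 2)) := by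
      intro j
      have h7 : bd S (k + 1) m j = S.b m ^ (j % 2) * bd S k (m + 1) (j / 2) := rfl
      rw [h7, Real.log_mul (pow_ne_zero _ (S.b_pos m).ne')
        (one_pos.trans_le (bd_one_le S k _ _)).ne', Real.log_pow]
    rw [pow_succ, mul_comm (2 ^ k) 2, sum_range_two_mul]
    have h2 : ∀ i : ℕ, Real.log (bd S (k + 1) m (2 * i)) + Real.log (bd S (k + 1) m (2 * i + 1)) =
        Real.log (S.b m) + 2 * Real.log (bd S k (m + 1) i) := by
      intro i
      rw [h1, h1]
      have e1 : 2 * i % 2 = 0 := by omega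
      have e2 : (2 * i + 1) % 2 = 1 := by omega
      have e3 : 2 * i / 2 = i := by omega
      have e4 : (2 * i + 1) / 2 = i := by omega
      rw [e1, e2, e3, e4]
      push_cast
      ring
    rw [Finset.sum_congr rfl fun i _ => h2 i, Finset.sum_add_distrib, Finset.sum_const,
      Finset.card_range, nsmul_eq_mul, ← Finset.mul_sum, ih (m + 1), Finset.sum_range_succ']
    have h3 : ∀ i ∈ range k, Real.log (S.b (m + 1 + i)) = Real.log (S.b (m + (i + 1))) := by
      intro i _
      rw [add_assoc, add_comm 1 i]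
    rw [Finset.sum_congr rfl h3, add_zero]
    push_cast
    ring

theorem sum_log_b_le {ε : ℝ} (hε : 0 < ε) :
    ∃ C : ℝ, ∀ k : ℕ, ∑ i ∈ range k, Real.log (S.b i) ≤ C + ε * 2 ^ k := by
  obtain ⟨N, hN⟩ := Filter.eventually_atTop.mp (S.small.eventually_lt_const hε)
  have hlog : ∀ i, 0 ≤ Real.log (S.b i) := fun i => Real.log_nonneg (by linarith [S.two_le_b i])
  refine ⟨∑ i ∈ range N, Real.log (S.b i), fun k => ?_⟩
  have h1 : ∀ i ∈ range k, Real.log (S.b i) ≤ (if i < N then Real.log (S.b i) else 0) + ε * 2 ^ i := by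
    intro i _
    have hp : (0 : ℝ) < 2 ^ i := by positivity
    split_ifs with h
    · have := mul_pos hε hp
      linarith
    · have h2 := hN i (by omega)
      rw [div_lt_iff₀ hp] at h2
      linarith
  have h2 : ∑ i ∈ range k, (if i < N then Real.log (S.b i) else 0) ≤
      ∑ i ∈ range N, Real.log (S.b i) := by
    rw [← Finset.sum_filter]
    refine Finset.sum_le_sum_of_subset_of_nonneg ?_ fun i _ _ => hlog i
    intro i hi
    rw [Finset.mem_filter] at hi
    exact Finset.mem_range.mpr hi.2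
  have h3 : ∀ n : ℕ, ∑ i ∈ range n, (2 : ℝ) ^ i ≤ 2 ^ n := by
    intro n
    induction n with
    | zero => simp
    | succ n ih =>
      rw [Finset.sum_range_succ, pow_succ]
      linarith
  calc ∑ i ∈ range k, Real.log (S.b i)
      ≤ ∑ i ∈ range k, ((if i < N then Real.log (S.b i) else 0) + ε * 2 ^ i) :=
        Finset.sum_le_sum h1
    _ = ∑ i ∈ range k, (if i < N then Real.log (S.b i) else 0) + ε * ∑ i ∈ range k, (2 : ℝ) ^ i := by
        rw [Finset.sum_add_distrib, Finset.mul_sum]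
    _ ≤ _ := by
        have := mul_le_mul_of_nonneg_left (h3 k) hε.le
        linarith

/-- The mean of `log |x - y|` is at most `0` for every measure of finite energy on the Julia set. -/
theorem energy_nonpos (rho : Measure ℂ) [IsProbabilityMeasure rho] [NullSingletonClass rho]
    (h : rho S.Kᶜ = 0)
    (hint : Integrable (fun p : ℂ × ℂ => Real.log ‖p.1 - p.2‖) (rho.prod rho)) :
    ∫ p, Real.log ‖p.1 - p.2‖ ∂(rho.prod rho) ≤ 0 := by
  set E := ∫ p, Real.log ‖p.1 - p.2‖ ∂(rho.prod rho) with hE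
  apply le_of_forall_pos_le_add
  intro ε hε
  rw [zero_add]
  obtain ⟨C, hC⟩ := sum_log_b_le S hε
  have key : ∀ k : ℕ, E * (1 - (1 / 2) ^ k) ≤ (2 * Real.log 2) * (k * (1 / 2) ^ k) +
      C * (1 / 2) ^ k + ε := by
    intro k
    have h1 := energy_le (n := 2 ^ k) (K := S.K) (P := fun j => pl S k 0 j)
      (fun j => (pl_spec S k 0 j j.2).1) (fun j => (pl_spec S k 0 j j.2).2)
      (B := fun j => bd S k 0 j) (fun j => bd_one_le S k 0 j) (by
        rintro j z ⟨x, ⟨e, rfl⟩, rfl⟩
        exact pl_le S k 0 j e) rho h hint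
    rw [← hE] at h1
    rw [Fin.sum_univ_eq_sum_range (fun j => Real.log (bd S k 0 j)) (2 ^ k)] at h1
    have h2 := sum_log_bd S k 0
    simp only [zero_add] at h2
    have h3 : Real.log ((2 ^ k).factorial : ℝ) ≤ 2 ^ k * (k * Real.log 2) := by
      have h4 : ((2 ^ k).factorial : ℝ) ≤ ((2 : ℝ) ^ k) ^ (2 ^ k) := by
        exact_mod_cast Nat.factorial_le_pow (2 ^ k)
      have h5 := Real.log_le_log (by exact_mod_cast Nat.factorial_pos _) h4
      rw [Real.log_pow, Real.log_pow] at h5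
      push_cast at h5
      exact h5
    have hk : (0 : ℝ) < 2 ^ k := by positivity
    have h6 := hC k
    have h7 : ((2 ^ k : ℕ) : ℝ) = 2 ^ k := by push_cast; ring
    rw [h7] at h1
    have h8 : (2 : ℝ) ^ k * (2 ^ k - 1) * E ≤ 2 * (2 ^ k * (k * Real.log 2)) + 2 ^ k * (C + ε * 2 ^ k) := by
      have h9 := mul_le_mul_of_nonneg_left h6 hk.le
      linarith
    have h9 : (2 ^ k - 1) * E ≤ 2 * (k * Real.log 2) + (C + ε * 2 ^ k) := by
      have h10 : (2 : ℝ) ^ k * ((2 ^ k - 1) * E) ≤ 2 ^ k * (2 * (k * Real.log 2) + (C + ε * 2 ^ k)) := by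
        linarith
      exact le_of_mul_le_mul_left h10 hk
    have h10 : (1 / 2 : ℝ) ^ k = 1 / 2 ^ k := by rw [one_div_pow]
    rw [h10]
    have h11 := div_le_div_of_nonneg_right h9 hk.le
    calc E * (1 - 1 / 2 ^ k) = (2 ^ k - 1) * E / 2 ^ k := by field_simp
      _ ≤ _ := h11
      _ = _ := by field_simp; ring
  have hp : Tendsto (fun k : ℕ => ((1 : ℝ) / 2) ^ k) atTop (𝓝 0) :=
    tendsto_pow_atTop_nhds_zero_of_lt_one (by norm_num) (by norm_num)
  have hkp : Tendsto (fun k : ℕ => (k : ℝ) * ((1 : ℝ) / 2) ^ k) atTop (𝓝 0) :=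
    tendsto_self_mul_const_pow_of_lt_one (by norm_num) (by norm_num)
  have l1 : Tendsto (fun k : ℕ => E * (1 - ((1 : ℝ) / 2) ^ k)) atTop (𝓝 (E * (1 - 0))) :=
    (hp.const_sub 1).const_mul E
  have l2 : Tendsto (fun k : ℕ => (2 * Real.log 2) * (k * ((1 : ℝ) / 2) ^ k) +
      C * ((1 : ℝ) / 2) ^ k + ε) atTop (𝓝 ((2 * Real.log 2) * 0 + C * 0 + ε)) :=
    ((hkp.const_mul _).add (hp.const_mul _)).add_const _
  have l3 := le_of_tendsto_of_tendsto' l1 l2 key
  linarith

end Pool.Agent.Lib_helper88.WE
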